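import Pool.Agent.Lib.MP_2ca8f5_lc.Correct

set_option autoImplicit false

namespace Pool.Agent.Results.MP_2ca8f5_lc.PolyTimeAlgorithm

open Pool.Agent.Lib.MP2ca8f5

/-- There is a polynomial time algorithm that finds, for every instance of unidirectional
maintenance scheduling with arbitrarily spaced parallel train paths, a schedule minimising the
number of cancelled paths. -/
theorem result : ∃ A : Inst → List Frac, PolyTime A ∧ ∀ I : Inst, Valid I →
    (∀ q ∈ A I, q.Proper) ∧ IsSchedule I ((A I).map Frac.toReal) ∧
      ∀ s : List ℝ, IsSchedule I s →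
        numCancelled I ((A I).map Frac.toReal) ≤ numCancelled I s :=
  ⟨algo, poly_algo, fun _ hI => algo_correct hI⟩

end Pool.Agent.Results.MP_2ca8f5_lc.PolyTimeAlgorithm
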